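import Pool.Agent.H38.FT.Basic

/-!
# The threshold `g(k)` grows faster than every exponential function

`Thr k N` (in `Pool/Agent/H38/FT/Basic.lean`) is the property of `N` in the definition of `g(k)`: `N` is positive and for
all coprime `N < a < b` some `k`-th power of a prime is at most `ab - a - b` and of the form `ax + by`.
-/

namespace Pool.Agent.Results.MP_60af67_nt.SuperexponentialGrowth

open Pool.Agent.H38.FT

/-- Every `N` with the property has `N ^ 2 > 8 * (k / 7) ^ k`; and if `g k` is the least such `N` for every `k ≥ 1`, then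
for all `C`, `K` some `k ≥ K` has `g (k + 1) > C * g k`. -/
theorem result :
    (∀ k N : ℕ, 7 ≤ k → Thr k N → 8 * (k / 7) ^ k < N ^ 2) ∧
      ∀ g : ℕ → ℕ, (∀ k, 1 ≤ k → IsLeast {N | Thr k N} (g k)) → ∀ C K : ℕ, ∃ k, K ≤ k ∧ C * g k < g (k + 1) :=
  ⟨main, ratio⟩

end Pool.Agent.Results.MP_60af67_nt.SuperexponentialGrowth
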